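import Pool.Agent.W438.CY.Stm

/-! Project CY, part KINI: linear initial neighbours. -/

set_option autoImplicit false

namespace Pool.Agent.W678.CY

open Function Pool.Agent.W438.CY

theorem sum_I_unique {m : ℕ} (P : Fin m → Prop) (h : ∀ i j, P i → P j → i = j) :
    ∑ j, I (P j) = I (∃ j, P j) := by
  classical
  by_cases he : ∃ j, P j
  · obtain ⟨j, hj⟩ := he
    rw [Finset.sum_eq_single j]
    · have h1 : ∃ j, P j := ⟨j, hj⟩
      simp [I, hj, h1]
    · intro b _ hb
      have : ¬ P b := fun hb' => hb (h b j hb' hj)
      simp [I, this]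
    · intro hn
      exact absurd (Finset.mem_univ j) hn
  · have h1 : ∀ j, ¬ P j := fun j hj => he ⟨j, hj⟩
    simp [I, h1]

theorem I_congr {p q : Prop} (h : p ↔ q) : I p = I q := by
  rw [propext h]

theorem kini : S_KINI := by
  intro m C x g p
  refine ⟨?_, ?_, ?_, ?_, ?_, ?_⟩
  · rw [sum_I_unique (fun j => Inn g j p ∧ g j ≤ g p)]
    · apply I_congr
      constructor
      · rintro ⟨j, hj, hj'⟩
        exact ⟨j, hj.1, hj'⟩
      · rintro ⟨l, hl, hl'⟩
        classical
        have hne : (Finset.univ.filter (fun l : Fin m => l < p ∧ g l ≤ g p)).Nonempty :=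
          ⟨l, by simp [hl, hl']⟩
        have hmem := Finset.max'_mem _ hne
        set j := Finset.max' _ hne with hj
        rw [Finset.mem_filter] at hmem
        refine ⟨j, ⟨hmem.2.1, fun l' h1 h2 => ?_⟩, hmem.2.2⟩
        have h3 : g p < g l' := by
          by_contra hcon
          have h4 : l' ∈ Finset.univ.filter (fun l : Fin m => l < p ∧ g l ≤ g p) := by
            simp [h2, not_lt.1 hcon]
          have h5 := Finset.le_max' _ l' h4
          exact absurd h1 (not_lt.2 h5)
        exact ⟨hmem.2.2.trans h3.le, h3⟩
    · rintro i j ⟨hi, hi'⟩ ⟨hj, hj'⟩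
      rcases lt_trichotomy i j with h | h | h
      · have := (hi.2 j h hj.1).2
        omega
      · exact h
      · have := (hj.2 i h hi.1).2
        omega
  · rw [sum_I_unique (fun j => Inn g p j ∧ g j < g p)]
    · apply I_congr
      constructor
      · rintro ⟨j, hj, hj'⟩
        exact ⟨j, hj.1, hj'⟩
      · rintro ⟨l, hl, hl'⟩
        classical
        have hne : (Finset.univ.filter (fun l : Fin m => p < l ∧ g l < g p)).Nonempty :=
          ⟨l, by simp [hl, hl']⟩
        have hmem := Finset.min'_mem _ hne
        set j := Finset.min' _ hne with hj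
        rw [Finset.mem_filter] at hmem
        refine ⟨j, ⟨hmem.2.1, fun l' h1 h2 => ?_⟩, hmem.2.2⟩
        have h3 : g p ≤ g l' := by
          by_contra hcon
          have h4 : l' ∈ Finset.univ.filter (fun l : Fin m => p < l ∧ g l < g p) := by
            simp [h1, not_le.1 hcon]
          have h5 := Finset.min'_le _ l' h4
          exact absurd h2 (not_lt.2 h5)
        exact ⟨h3, lt_of_lt_of_le hmem.2.2 h3⟩
    · rintro i j ⟨hi, hi'⟩ ⟨hj, hj'⟩
      rcases lt_trichotomy i j with h | h | h
      · have := (hj.2 i hi.1 h).1
        omega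
      · exact h
      · have := (hi.2 j hj.1 h).1
        omega
  · intro hpr j hj hj'
    refine ⟨fun l hl hlp => ?_, fun l hl hl' => ?_⟩
    · have := (hlp.2 j hl hj.1).2
      omega
    · have hin : Inn g j l := by
        refine ⟨hj.1.trans hl.1, fun l' h1 h2 => ?_⟩
        rcases lt_trichotomy l' p with h | h | h
        · have := hj.2 l' h1 h
          omega
        · subst h
          omega
        · have := hl.2 l' h h2
          omega
      exact (hpr j l hin (ne_of_lt hj.1) (ne_of_gt hl.1)).symm
  · intro hpr j hj hj'
    refine ⟨fun l hl hl' => ?_, fun l hl hpl => ?_⟩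
    · have hin : Inn g l j := by
        refine ⟨hl.1.trans hj.1, fun l' h1 h2 => ?_⟩
        rcases lt_trichotomy l' p with h | h | h
        · have := hl.2 l' h1 h
          omega
        · subst h
          omega
        · have := hj.2 l' h h2
          omega
      exact hpr l j hin (ne_of_lt hl.1) (ne_of_gt hj.1)
    · have := (hpl.2 j hj.1 hl).1
      omega
  · intro j hjp hg
    unfold Inn
    apply and_congr Iff.rfl
    apply forall_congr'
    intro l
    constructor
    · intro h h1 h2
      have h3 := h h1 h2
      rw [update_self, update_of_ne (ne_of_lt hjp), update_self,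
        update_of_ne (ne_of_lt h2), update_of_ne (ne_of_gt h1)] at h3
      omega
    · intro h h1 h2
      have h3 := h h1 h2
      rw [update_self, update_of_ne (ne_of_lt hjp), update_self,
        update_of_ne (ne_of_lt h2), update_of_ne (ne_of_gt h1)]
      omega
  · intro j hjp hg
    unfold Inn
    apply and_congr Iff.rfl
    apply forall_congr'
    intro l
    constructor
    · intro h h1 h2
      have h3 := h h1 h2
      rw [update_self, update_of_ne (ne_of_gt hjp), update_self,
        update_of_ne (ne_of_gt h1), update_of_ne (ne_of_lt h2)] at h3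
      omega
    · intro h h1 h2
      have h3 := h h1 h2
      rw [update_self, update_of_ne (ne_of_gt hjp), update_self,
        update_of_ne (ne_of_gt h1), update_of_ne (ne_of_lt h2)]
      omega

end Pool.Agent.W678.CY
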